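import Pool.Agent.EA.Final

/-!
# MP_071b90_al: the series `τ_{n,d}` for odd `d > 3` and `d ≤ n ≤ 3 d - 4`
-/

set_option autoImplicit false

namespace Pool.Agent.Results.MP_071b90_al.TauUpTo3d

open Pool.Agent.EA

/-- Let `d > 3` be odd, `d ≤ n ≤ 3 d - 4` and `f` a generic form of degree `d` in `⋀ Kⁿ`. All
coefficients of `τ_{n,d}` vanish, except possibly that of `t^r` with `2 r = n - d` and `r` odd.
That coefficient is nonnegative and congruent to `C(n, r)` modulo `2`, and it is the residue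
`0` or `1` of `C(n, r)` modulo `2` if `3 n ≤ 5 d`, or if `r + 3 ≤ d` and
`C(2 r, r) C(n, r) ≤ (C(d, r) + 1) C(r + d - 1, r)`. -/
theorem result (K : Type) [Field K] [CharZero K] (n d : ℕ) (hd : Odd d) (h3 : 3 < d)
    (hdn : d ≤ n) (hn : n + 4 ≤ 3 * d) (f : E K n) (hf : IsGeneric K n d f) :
    (∀ r, 2 * r ≠ n - d → tauCoeff K n d f r = 0) ∧
    (∀ r, 2 * r = n - d → Even r → tauCoeff K n d f r = 0) ∧
    (∀ r, 2 * r = n - d → Odd r →
      0 ≤ tauCoeff K n d f r ∧ tauCoeff K n d f r % 2 = (n.choose r : ℤ) % 2) ∧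
    (∀ r, 2 * r = n - d → Odd r →
      (3 * n ≤ 5 * d ∨ (r + 3 ≤ d ∧
        (2 * r).choose r * n.choose r ≤ (d.choose r + 1) * (r + d - 1).choose r)) →
      tauCoeff K n d f r = (n.choose r : ℤ) % 2) := by
  obtain ⟨h1, h2, h4⟩ := main hd hdn hn hf
  exact ⟨h1, h2, fun r hr ho => ⟨(h4 r hr ho).1, (h4 r hr ho).2.1⟩,
    fun r hr ho hc => (h4 r hr ho).2.2 h3 hc⟩

end Pool.Agent.Results.MP_071b90_al.TauUpTo3d
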